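import Mathlib
import Pool.Agent.H361R2.PP.Asm2

/-! For every `j` a positive proportion of the intervals `[k, k + 1 + floor (log k)]` contain
exactly `j` primes. -/

open Classical in
theorem Pool.Agent.Results.MP_76b9e7_nt.EveryCountPositive.result :
    ∀ j : ℕ, ∃ c : ℝ, 0 < c ∧ ∃ N₀ : ℕ, ∀ N : ℕ, N₀ ≤ N →
      c * N ≤ (((Finset.Icc 1 N).filter (fun k : ℕ =>
        ((Finset.Icc k (k + 1 + ⌊Real.log k⌋₊)).filter Nat.Prime).card = j)).card : ℝ) := by
  intro j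
  obtain ⟨c, hc, N₀, h⟩ := Pool.Agent.H361R2.PP.gamP j
  refine ⟨c, hc, N₀, fun N hN => (h N hN).trans (Nat.cast_le.2 (Finset.card_le_card ?_))⟩
  intro n hn
  rw [Finset.mem_filter] at hn ⊢
  refine ⟨hn.1, ?_⟩
  have h1 := hn.2
  unfold Pool.Agent.H361R2.PP.cnt at h1
  convert h1
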